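import Pool.Agent.H586.AF.C

/-!
# AF-HR: reality, symmetry and bounds of the jet of the Hessian (helper16 for helper586)

All the entries are trigonometric polynomials with real coefficients of bounded sum and with
frequencies at most `4 L`.
-/

set_option autoImplicit false
set_option linter.unusedVariables false

open Matrix Finset

namespace Pool.Agent.H16.AF

open Pool.Agent.H586.AF

noncomputable section

/-- trigonometric polynomials with real coefficients -/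
def tp (l : List (ℝ × ℝ)) (θ : ℝ) : ℂ :=
  (l.map fun a => (a.1 : ℂ) * Complex.exp (Complex.I * (θ * a.2 : ℝ))).sum

/-- the sum of the absolute values of the coefficients -/
def wt (l : List (ℝ × ℝ)) : ℝ := (l.map fun a => |a.1|).sum

theorem tp_nil (θ : ℝ) : tp [] θ = 0 := rfl

theorem tp_cons (a : ℝ × ℝ) (l : List (ℝ × ℝ)) (θ : ℝ) :
    tp (a :: l) θ = (a.1 : ℂ) * Complex.exp (Complex.I * (θ * a.2 : ℝ)) + tp l θ := by
  unfold tp
  rw [List.map_cons, List.sum_cons]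

theorem tp_append (l l' : List (ℝ × ℝ)) (θ : ℝ) : tp (l ++ l') θ = tp l θ + tp l' θ := by
  unfold tp
  rw [List.map_append, List.sum_append]

theorem wt_cons (a : ℝ × ℝ) (l : List (ℝ × ℝ)) : wt (a :: l) = |a.1| + wt l := by
  unfold wt
  rw [List.map_cons, List.sum_cons]

theorem wt_append (l l' : List (ℝ × ℝ)) : wt (l ++ l') = wt l + wt l' := by
  unfold wt
  rw [List.map_append, List.sum_append]

theorem wt_nonneg (l : List (ℝ × ℝ)) : 0 ≤ wt l := by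
  induction l with
  | nil => exact le_rfl
  | cons a l ih =>
    rw [wt_cons]
    have := abs_nonneg a.1
    linarith

/-- multiplication by one term -/
def m1 (a : ℝ × ℝ) (l : List (ℝ × ℝ)) : List (ℝ × ℝ) := l.map fun b => (a.1 * b.1, a.2 + b.2)

theorem tp_m1 (a : ℝ × ℝ) (l : List (ℝ × ℝ)) (θ : ℝ) :
    tp (m1 a l) θ = (a.1 : ℂ) * Complex.exp (Complex.I * (θ * a.2 : ℝ)) * tp l θ := by
  induction l with
  | nil => simp [m1, tp_nil]
  | cons b l ih =>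
    have h : m1 a (b :: l) = (a.1 * b.1, a.2 + b.2) :: m1 a l := rfl
    rw [h, tp_cons, tp_cons, ih]
    have e : Complex.I * ((θ * (a.2 + b.2) : ℝ) : ℂ) =
        Complex.I * ((θ * a.2 : ℝ) : ℂ) + Complex.I * ((θ * b.2 : ℝ) : ℂ) := by
      push_cast
      ring
    show ((a.1 * b.1 : ℝ) : ℂ) * Complex.exp (Complex.I * ((θ * (a.2 + b.2) : ℝ) : ℂ)) + _ = _
    rw [e, Complex.exp_add]
    push_cast
    ring

theorem wt_m1 (a : ℝ × ℝ) (l : List (ℝ × ℝ)) : wt (m1 a l) = |a.1| * wt l := by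
  induction l with
  | nil => simp [m1, wt]
  | cons b l ih =>
    have h : m1 a (b :: l) = (a.1 * b.1, a.2 + b.2) :: m1 a l := rfl
    rw [h, wt_cons, wt_cons, ih, mul_add]
    congr 1
    exact abs_mul _ _

/-- the product -/
def pr (l l' : List (ℝ × ℝ)) : List (ℝ × ℝ) := l.flatMap fun a => m1 a l'

theorem pr_cons (a : ℝ × ℝ) (l l' : List (ℝ × ℝ)) : pr (a :: l) l' = m1 a l' ++ pr l l' := by
  unfold pr
  rw [List.flatMap_cons]

theorem tp_pr (l l' : List (ℝ × ℝ)) (θ : ℝ) : tp (pr l l') θ = tp l θ * tp l' θ := by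
  induction l with
  | nil =>
    show tp [] θ = _
    rw [tp_nil, zero_mul]
  | cons a l ih => rw [pr_cons, tp_append, ih, tp_m1, tp_cons, add_mul]

theorem wt_pr (l l' : List (ℝ × ℝ)) : wt (pr l l') = wt l * wt l' := by
  induction l with
  | nil =>
    show wt [] = _
    simp [wt]
  | cons a l ih => rw [pr_cons, wt_append, ih, wt_m1, wt_cons, add_mul]

/-- trigonometric polynomials with real coefficients, sum of the coefficients at most `c`,
frequencies at most `B` -/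
def TP (c B : ℝ) (f : ℝ → ℂ) : Prop :=
  ∃ l : List (ℝ × ℝ), (∀ θ, f θ = tp l θ) ∧ wt l ≤ c ∧ ∀ a ∈ l, |a.2| ≤ B

theorem TP.mono {c B c' B' : ℝ} {f : ℝ → ℂ} (h : TP c B f) (hc : c ≤ c') (hB : B ≤ B') :
    TP c' B' f := by
  obtain ⟨l, h1, h2, h3⟩ := h
  exact ⟨l, h1, h2.trans hc, fun a ha => (h3 a ha).trans hB⟩

theorem TP.zero (B : ℝ) : TP 0 B (fun _ => 0) :=
  ⟨[], fun _ => rfl, le_rfl, fun a ha => by simp at ha⟩

theorem TP.real (r : ℝ) : TP |r| 0 (fun _ => (r : ℂ)) := by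
  refine ⟨[(r, 0)], fun θ => ?_, ?_, ?_⟩
  · rw [tp_cons, tp_nil]
    simp
  · simp [wt]
  · simp

theorem TP.exp (p : ℝ) : TP 1 |p| (fun θ => Complex.exp (Complex.I * (θ * p : ℝ))) := by
  refine ⟨[(1, p)], fun θ => ?_, ?_, ?_⟩
  · rw [tp_cons, tp_nil]
    simp
  · simp [wt]
  · simp

theorem TP.add {c d B : ℝ} {f g : ℝ → ℂ} (h : TP c B f) (h' : TP d B g) :
    TP (c + d) B (fun θ => f θ + g θ) := by
  obtain ⟨l, h1, h2, h3⟩ := h
  obtain ⟨l', h1', h2', h3'⟩ := h'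
  refine ⟨l ++ l', fun θ => ?_, ?_, fun a ha => ?_⟩
  · show f θ + g θ = _
    rw [tp_append, h1, h1']
  · rw [wt_append]
    linarith
  · rcases List.mem_append.1 ha with ha | ha
    · exact h3 a ha
    · exact h3' a ha

theorem TP.mul {c d B B' : ℝ} {f g : ℝ → ℂ} (h : TP c B f) (h' : TP d B' g) :
    TP (c * d) (B + B') (fun θ => f θ * g θ) := by
  obtain ⟨l, h1, h2, h3⟩ := h
  obtain ⟨l', h1', h2', h3'⟩ := h'
  refine ⟨pr l l', fun θ => ?_, ?_, fun a ha => ?_⟩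
  · show f θ * g θ = _
    rw [tp_pr, h1, h1']
  · rw [wt_pr]
    exact mul_le_mul h2 h2' (wt_nonneg _) ((wt_nonneg _).trans h2)
  · unfold pr m1 at ha
    rw [List.mem_flatMap] at ha
    obtain ⟨b, hb, ha⟩ := ha
    rw [List.mem_map] at ha
    obtain ⟨b', hb', rfl⟩ := ha
    exact (abs_add_le _ _).trans (add_le_add (h3 b hb) (h3' b' hb'))

theorem TP.smul {c B : ℝ} {f : ℝ → ℂ} (h : TP c B f) (r : ℝ) :
    TP (|r| * c) B (fun θ => (r : ℂ) * f θ) :=
  ((TP.real r).mul h).mono le_rfl (by linarith)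

theorem TP.neg {c B : ℝ} {f : ℝ → ℂ} (h : TP c B f) : TP c B (fun θ => -f θ) := by
  have := h.smul (-1)
  simpa using this

theorem TP.sub {c d B : ℝ} {f g : ℝ → ℂ} (h : TP c B f) (h' : TP d B g) :
    TP (c + d) B (fun θ => f θ - g θ) := by
  have := h.add h'.neg
  simpa [sub_eq_add_neg] using this

theorem tp_star (l : List (ℝ × ℝ)) (θ : ℝ) :
    tp (l.map fun a => (a.1, -a.2)) θ = star (tp l θ) := by
  induction l with
  | nil => simp [tp]
  | cons a l ih =>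
    rw [List.map_cons, tp_cons, tp_cons, ih, star_add, star_mul']
    congr 1
    have h1 : star ((a.1 : ℝ) : ℂ) = a.1 := Complex.conj_ofReal _
    have h2 : star (Complex.exp (Complex.I * ((θ * a.2 : ℝ) : ℂ))) =
        Complex.exp (Complex.I * ((θ * -a.2 : ℝ) : ℂ)) := by
      show (starRingEnd ℂ) _ = _
      rw [← Complex.exp_conj, map_mul, Complex.conj_I, Complex.conj_ofReal]
      congr 1
      push_cast
      ring
    rw [h1, h2]

theorem wt_star (l : List (ℝ × ℝ)) : wt (l.map fun a => (a.1, -a.2)) = wt l := by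
  unfold wt
  rw [List.map_map]
  rfl

theorem TP.star {c B : ℝ} {f : ℝ → ℂ} (h : TP c B f) : TP c B (fun θ => star (f θ)) := by
  obtain ⟨l, h1, h2, h3⟩ := h
  refine ⟨l.map fun a => (a.1, -a.2), fun θ => ?_, ?_, fun a ha => ?_⟩
  · show Star.star (f θ) = _
    rw [tp_star, h1]
  · rw [wt_star]
    exact h2
  · rw [List.mem_map] at ha
    obtain ⟨b, hb, rfl⟩ := ha
    show |-b.2| ≤ B
    rw [abs_neg]
    exact h3 b hb

theorem TP.sum {ι : Type} (s : Finset ι) (c : ι → ℝ) (B : ℝ) (f : ι → ℝ → ℂ)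
    (h : ∀ i ∈ s, TP (c i) B (f i)) : TP (∑ i ∈ s, c i) B (fun θ => ∑ i ∈ s, f i θ) := by
  classical
  induction s using Finset.induction_on with
  | empty =>
    simp only [Finset.sum_empty]
    exact TP.zero B
  | insert a s ha ih =>
    simp only [Finset.sum_insert ha]
    exact (h a (Finset.mem_insert_self _ _)).add (ih fun i hi => h i (Finset.mem_insert_of_mem hi))

/-! ### the jet at `0` -/

/-- the coefficients times the frequencies -/
def dl (l : List (ℝ × ℝ)) : List (ℝ × ℝ) := l.map fun a => (a.1 * a.2, a.2)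

theorem tp_deriv (l : List (ℝ × ℝ)) (θ : ℝ) : HasDerivAt (tp l) (Complex.I * tp (dl l) θ) θ := by
  induction l with
  | nil =>
    have h : tp [] = fun _ => (0 : ℂ) := rfl
    have h' : Complex.I * tp (dl []) θ = 0 := by
      show Complex.I * tp [] θ = 0
      rw [tp_nil, mul_zero]
    rw [h, h']
    exact hasDerivAt_const θ (0 : ℂ)
  | cons a l ih =>
    have h1 : tp (a :: l) =
        fun θ => (a.1 : ℂ) * Complex.exp (Complex.I * (θ * a.2 : ℝ)) + tp l θ := by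
      funext θ
      exact tp_cons a l θ
    have h2 : dl (a :: l) = (a.1 * a.2, a.2) :: dl l := rfl
    rw [h1, h2, tp_cons, mul_add]
    refine HasDerivAt.add ?_ ih
    have e1 : HasDerivAt (fun θ : ℝ => Complex.I * ((θ * a.2 : ℝ) : ℂ)) (Complex.I * (a.2 : ℂ)) θ := by
      have h := ((hasDerivAt_id θ).mul_const a.2).ofReal_comp
      have h' := h.const_mul Complex.I
      simpa using h'
    have e2 := (e1.cexp).const_mul ((a.1 : ℝ) : ℂ)
    refine e2.congr_deriv ?_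
    push_cast
    ring

theorem tp_zero (l : List (ℝ × ℝ)) : tp l 0 = (((l.map fun a => a.1).sum : ℝ) : ℂ) := by
  induction l with
  | nil => simp [tp]
  | cons a l ih =>
    rw [tp_cons, ih, List.map_cons, List.sum_cons]
    simp

theorem sum_le_wt (l : List (ℝ × ℝ)) : |(l.map fun a => a.1).sum| ≤ wt l := by
  induction l with
  | nil => simp [wt]
  | cons a l ih =>
    rw [wt_cons, List.map_cons, List.sum_cons]
    exact (abs_add_le _ _).trans (add_le_add le_rfl ih)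

theorem wt_dl (B : ℝ) (l : List (ℝ × ℝ)) (h : ∀ a ∈ l, |a.2| ≤ B) : wt (dl l) ≤ wt l * B := by
  induction l with
  | nil => simp [wt, dl]
  | cons a l ih =>
    have h2 : dl (a :: l) = (a.1 * a.2, a.2) :: dl l := rfl
    rw [h2, wt_cons, wt_cons, add_mul]
    refine add_le_add ?_ (ih fun b hb => h b (List.mem_cons_of_mem _ hb))
    show |a.1 * a.2| ≤ |a.1| * B
    rw [abs_mul]
    exact mul_le_mul_of_nonneg_left (h a List.mem_cons_self) (abs_nonneg _)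

theorem mem_dl (B : ℝ) (l : List (ℝ × ℝ)) (h : ∀ a ∈ l, |a.2| ≤ B) : ∀ a ∈ dl l, |a.2| ≤ B := by
  intro a ha
  unfold dl at ha
  rw [List.mem_map] at ha
  obtain ⟨b, hb, rfl⟩ := ha
  exact h b hb

theorem TP.fin {c B : ℝ} {f : ℝ → ℂ} (h : TP c B f) (hB : 0 ≤ B) : ∃ r0 r1 r2 : ℝ,
    f 0 = r0 ∧ deriv f 0 = Complex.I * r1 ∧ deriv (deriv f) 0 = r2 ∧ |r0| ≤ c ∧ |r1| ≤ c * B ∧
      |r2| ≤ c * B ^ 2 := by
  obtain ⟨l, h1, h2, h3⟩ := h
  have hf : f = tp l := funext h1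
  have hd : deriv (tp l) = fun θ => Complex.I * tp (dl l) θ := by
    funext θ
    exact (tp_deriv l θ).deriv
  have hdd : deriv (fun θ => Complex.I * tp (dl l) θ) 0 =
      Complex.I * (Complex.I * tp (dl (dl l)) 0) := ((tp_deriv (dl l) 0).const_mul _).deriv
  have w1 : wt (dl l) ≤ c * B :=
    (wt_dl B l h3).trans (mul_le_mul_of_nonneg_right h2 hB)
  have w2 : wt (dl (dl l)) ≤ c * B ^ 2 :=
    (wt_dl B _ (mem_dl B l h3)).trans (by
      rw [pow_two, ← mul_assoc]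
      exact mul_le_mul_of_nonneg_right w1 hB)
  refine ⟨(l.map fun a => a.1).sum, ((dl l).map fun a => a.1).sum,
    -((dl (dl l)).map fun a => a.1).sum, ?_, ?_, ?_, ?_, ?_, ?_⟩
  · rw [hf, tp_zero]
  · rw [hf, hd]
    show Complex.I * tp (dl l) 0 = _
    rw [tp_zero]
  · rw [hf, hd, hdd, tp_zero, ← mul_assoc, Complex.I_mul_I]
    push_cast
    ring
  · exact (sum_le_wt l).trans h2
  · exact (sum_le_wt _).trans w1
  · rw [abs_neg]
    exact (sum_le_wt _).trans w2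

/-! ### matrices -/

/-- the entries are trigonometric polynomials -/
def TW {m n : Type} (W : Matrix m n ℝ) (B : ℝ) (V : ℝ → Matrix m n ℂ) : Prop :=
  ∀ i j, TP (W i j) B (fun θ => V θ i j)

/-- the same with a constant weight -/
def TC {m n : Type} (c : ℝ) (B : ℝ) (V : ℝ → Matrix m n ℂ) : Prop :=
  ∀ i j, TP c B (fun θ => V θ i j)

theorem TW.k4 {a b c d a' b' c' d' : Type} {W1 : Matrix a a' ℝ} {W2 : Matrix b b' ℝ}
    {W3 : Matrix c c' ℝ} {W4 : Matrix d d' ℝ} {V1 : ℝ → Matrix a a' ℂ} {V2 : ℝ → Matrix b b' ℂ}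
    {V3 : ℝ → Matrix c c' ℂ} {V4 : ℝ → Matrix d d' ℂ} {B : ℝ} (h1 : TW W1 B V1) (h2 : TW W2 0 V2)
    (h3 : TW W3 0 V3) (h4 : TW W4 0 V4) :
    TW (k4 W1 W2 W3 W4) B (fun θ => k4 (V1 θ) (V2 θ) (V3 θ) (V4 θ)) := fun i j =>
  ((((h1 i.1 j.1).mul (h2 i.2.1 j.2.1)).mul (h3 i.2.2.1 j.2.2.1)).mul
    (h4 i.2.2.2 j.2.2.2)).mono le_rfl (by simp)

theorem TC.k4 {a b c d a' b' c' d' : Type} {V1 : ℝ → Matrix a a' ℂ} {V2 : ℝ → Matrix b b' ℂ}
    {V3 : ℝ → Matrix c c' ℂ} {V4 : ℝ → Matrix d d' ℂ} {B w1 w2 w3 w4 : ℝ} (h1 : TC w1 B V1)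
    (h2 : TC w2 0 V2) (h3 : TC w3 0 V3) (h4 : TC w4 0 V4) :
    TC (w1 * w2 * w3 * w4) B (fun θ => k4 (V1 θ) (V2 θ) (V3 θ) (V4 θ)) := fun i j =>
  ((((h1 i.1 j.1).mul (h2 i.2.1 j.2.1)).mul (h3 i.2.2.1 j.2.2.1)).mul
    (h4 i.2.2.2 j.2.2.2)).mono le_rfl (by simp)

theorem TC.mono {m n : Type} {c B c' B' : ℝ} {V : ℝ → Matrix m n ℂ} (h : TC c B V) (hc : c ≤ c')
    (hB : B ≤ B') : TC c' B' V := fun i j => (h i j).mono hc hB

theorem TC.add {m n : Type} {c d B : ℝ} {V V' : ℝ → Matrix m n ℂ} (h : TC c B V) (h' : TC d B V') :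
    TC (c + d) B (fun θ => V θ + V' θ) := fun i j => (h i j).add (h' i j)

theorem TC.sub {m n : Type} {c d B : ℝ} {V V' : ℝ → Matrix m n ℂ} (h : TC c B V) (h' : TC d B V') :
    TC (c + d) B (fun θ => V θ - V' θ) := fun i j => (h i j).sub (h' i j)

theorem TC.star {m n : Type} {c B : ℝ} {V : ℝ → Matrix m n ℂ} (h : TC c B V) :
    TC c B (fun θ => (V θ)ᴴ) := fun i j => (h j i).star

theorem TC.smul {m n : Type} {c d B B' : ℝ} {f : ℝ → ℂ} {V : ℝ → Matrix m n ℂ} (hf : TP c B f)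
    (h : TC d B' V) : TC (c * d) (B + B') (fun θ => f θ • V θ) := fun i j => hf.mul (h i j)

theorem TC.cx {m n : Type} {a : ℝ} {A : Matrix m n ℝ} (h : ∀ i j, |A i j| ≤ a) :
    TC a 0 (fun _ => cx A) := fun i j => (TP.real (A i j)).mono (h i j) le_rfl

theorem TW.one {n : Type} [DecidableEq n] : TW (1 : Matrix n n ℝ) 0 (fun _ => 1) := fun i j => by
  show TP ((1 : Matrix n n ℝ) i j) 0 (fun _ => (1 : Matrix n n ℂ) i j)
  by_cases hij : i = j
  · subst hij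
    rw [Matrix.one_apply_eq, Matrix.one_apply_eq]
    have := TP.real 1
    simpa using this
  · rw [Matrix.one_apply_ne hij, Matrix.one_apply_ne hij]
    exact TP.zero 0

theorem one_le_one {n : Type} [DecidableEq n] (i j : n) : (1 : Matrix n n ℝ) i j ≤ 1 := by
  rw [Matrix.one_apply]
  split_ifs <;> norm_num

theorem one_nonneg' {n : Type} [DecidableEq n] (i j : n) : 0 ≤ (1 : Matrix n n ℝ) i j := by
  rw [Matrix.one_apply]
  split_ifs <;> norm_num

theorem TC.one {n : Type} [DecidableEq n] : TC 1 0 (fun _ => (1 : Matrix n n ℂ)) := fun i j =>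
  (TW.one i j).mono (one_le_one i j) le_rfl

theorem TC.diag {n : Type} [DecidableEq n] {a : ℝ} {d : n → ℝ} (h : ∀ i, |d i| ≤ a) (ha : 0 ≤ a) :
    TC a 0 (fun _ => (Matrix.diagonal fun i => ((d i : ℝ) : ℂ) : Matrix n n ℂ)) := fun i j => by
  by_cases hij : i = j
  · subst hij
    simp only [Matrix.diagonal_apply_eq]
    exact (TP.real (d i)).mono (h i) le_rfl
  · simp only [Matrix.diagonal_apply_ne _ hij]
    exact (TP.zero 0).mono ha le_rfl

theorem phs_exp {n : ℕ} (s x0 B : ℝ) (i : Fin n) (h : |s * (((i : ℕ) : ℝ) + x0)| ≤ B) :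
    TP 1 B (fun θ => Complex.exp (Complex.I * (θ * s * (((i : ℕ) : ℝ) + x0) : ℝ))) := by
  have h1 := (TP.exp (s * (((i : ℕ) : ℝ) + x0))).mono le_rfl h
  have e : (fun θ : ℝ => Complex.exp (Complex.I * (θ * s * (((i : ℕ) : ℝ) + x0) : ℝ))) =
      fun θ : ℝ => Complex.exp (Complex.I * (θ * (s * (((i : ℕ) : ℝ) + x0)) : ℝ)) := by
    funext θ
    rw [mul_assoc θ]
  rw [e]
  exact h1

theorem freq {n L : ℕ} (hn : n ≤ L) (hL : 2 ≤ L) (s x0 : ℝ) (hs : |s| ≤ 1) (h0 : 0 ≤ x0)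
    (h1 : x0 ≤ 1) (i : Fin n) : |s * (((i : ℕ) : ℝ) + x0)| ≤ 2 * L := by
  have hi : ((i : ℕ) : ℝ) ≤ L := by exact_mod_cast (i.2.le.trans hn)
  have hL' : (2 : ℝ) ≤ L := by exact_mod_cast hL
  have hi0 : (0 : ℝ) ≤ ((i : ℕ) : ℝ) := Nat.cast_nonneg _
  rw [abs_mul, abs_of_nonneg (show (0 : ℝ) ≤ ((i : ℕ) : ℝ) + x0 by linarith)]
  calc |s| * (((i : ℕ) : ℝ) + x0) ≤ 1 * (((i : ℕ) : ℝ) + x0) :=
        mul_le_mul_of_nonneg_right hs (by linarith)
    _ ≤ 2 * L := by linarith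

theorem TW.phs {n L : ℕ} (hn : n ≤ L) (hL : 2 ≤ L) (s x0 : ℝ) (hs : |s| ≤ 1) (h0 : 0 ≤ x0)
    (h1 : x0 ≤ 1) : TW (1 : Matrix (Fin n) (Fin n) ℝ) (2 * L) (fun θ => phs (n := n) θ s x0) :=
  fun i j => by
  unfold Pool.Agent.H586.AF.phs
  by_cases hij : i = j
  · subst hij
    simp only [Matrix.diagonal_apply_eq, Matrix.one_apply_eq]
    exact phs_exp s x0 _ i (freq hn hL s x0 hs h0 h1 i)
  · simp only [Matrix.diagonal_apply_ne _ hij, Matrix.one_apply_ne hij]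
    exact TP.zero _

theorem TC.phs {n L : ℕ} (hn : n ≤ L) (hL : 2 ≤ L) (s x0 : ℝ) (hs : |s| ≤ 1) (h0 : 0 ≤ x0)
    (h1 : x0 ≤ 1) : TC 1 (2 * L) (fun θ => phs (n := n) θ s x0) := fun i j =>
  (TW.phs hn hL s x0 hs h0 h1 i j).mono (one_le_one i j) le_rfl

theorem TC.phs_mul {n n' L : ℕ} (hn : n ≤ L) (hL : 2 ≤ L) (s x0 : ℝ) (hs : |s| ≤ 1) (h0 : 0 ≤ x0)
    (h1 : x0 ≤ 1) {a : ℝ} {A : Matrix (Fin n) (Fin n') ℝ} (h : ∀ i j, |A i j| ≤ a) :
    TC a (2 * L) (fun θ => Pool.Agent.H586.AF.phs (n := n) θ s x0 * Pool.Agent.H586.AF.cx A) :=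
  fun i j => by
  unfold Pool.Agent.H586.AF.phs
  simp only [Matrix.diagonal_mul]
  exact ((phs_exp s x0 _ i (freq hn hL s x0 hs h0 h1 i)).mul
    ((TP.real (A i j)).mono (h i j) le_rfl)).mono (by simp) (by simp)

/-! ### sums of rows and columns -/

theorem ite_sum {α : Type} [Fintype α] (p : α → Prop) [DecidablePred p]
    (h : ∀ a b, p a → p b → a = b) : ∑ a, (if p a then (1 : ℝ) else 0) ≤ 1 := by
  rw [Finset.sum_boole]
  have : (Finset.univ.filter p).card ≤ 1 := by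
    rw [Finset.card_le_one]
    intro a ha b hb
    exact h a b (Finset.mem_filter.1 ha).2 (Finset.mem_filter.1 hb).2
  exact_mod_cast this

theorem nm_nonneg (n m : ℕ) (j : Fin n) (i : Fin m) : 0 ≤ nm n m j i := by
  unfold nm
  split_ifs <;> norm_num

theorem nm_le (n m : ℕ) (j : Fin n) (i : Fin m) : nm n m j i ≤ 2 := by
  unfold nm
  split_ifs <;> norm_num

theorem nm_row (n m : ℕ) (j : Fin n) : ∑ i, nm n m j i ≤ 2 := by
  unfold nm
  rw [Finset.sum_add_distrib]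
  have h1 := ite_sum (fun i : Fin m => (i : ℕ) = j) (fun a b ha hb => Fin.ext (ha.trans hb.symm))
  have h2 := ite_sum (fun i : Fin m => (i : ℕ) + 1 = j)
    (fun a b ha hb => Fin.ext (by omega))
  linarith

theorem nm_col (n m : ℕ) (i : Fin m) : ∑ j, nm n m j i ≤ 2 := by
  unfold nm
  rw [Finset.sum_add_distrib]
  have h1 := ite_sum (fun j : Fin n => (i : ℕ) = j) (fun a b ha hb => Fin.ext (ha.symm.trans hb))
  have h2 := ite_sum (fun j : Fin n => (i : ℕ) + 1 = j) (fun a b ha hb => Fin.ext (ha.symm.trans hb))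
  linarith

theorem dm_le (n m : ℕ) (j : Fin n) (i : Fin m) : |dm n m j i| ≤ nm n m j i := by
  unfold dm nm
  split_ifs <;> norm_num

theorem dm_le_one (n m : ℕ) (j : Fin n) (i : Fin m) : |dm n m j i| ≤ 1 := by
  unfold dm
  split_ifs <;> norm_num

theorem lT_le (n m : ℕ) (i j : Fin m) : |((dm n m)ᵀ * dm n m) i j| ≤ 2 := by
  rw [Matrix.mul_apply]
  refine (Finset.abs_sum_le_sum_abs _ _).trans ((Finset.sum_le_sum fun k _ => ?_).trans
    (nm_col n m i))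
  rw [abs_mul, Matrix.transpose_apply]
  calc |dm n m k i| * |dm n m k j| ≤ nm n m k i * 1 :=
        mul_le_mul (dm_le _ _ _ _) (dm_le_one _ _ _ _) (abs_nonneg _) (nm_nonneg _ _ _ _)
    _ = _ := mul_one _

theorem lN_le (n m : ℕ) (i j : Fin n) : |(dm n m * (dm n m)ᵀ) i j| ≤ 2 := by
  rw [Matrix.mul_apply]
  refine (Finset.abs_sum_le_sum_abs _ _).trans ((Finset.sum_le_sum fun k _ => ?_).trans
    (nm_row n m i))
  rw [abs_mul, Matrix.transpose_apply]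
  calc |dm n m i k| * |dm n m j k| ≤ nm n m i k * 1 :=
        mul_le_mul (dm_le _ _ _ _) (dm_le_one _ _ _ _) (abs_nonneg _) (nm_nonneg _ _ _ _)
    _ = _ := mul_one _

theorem tm_le (n : ℕ) (i j : Fin n) : |tm n i j| ≤ 1 := by
  unfold tm
  split_ifs <;> norm_num

theorem tmT_le (n : ℕ) (i j : Fin n) : |(tm n)ᵀ i j| ≤ 1 := tm_le n j i

theorem covL_TC {n1 n2 n3 n4 L : ℕ} (hn : n1 ≤ L) (hL : 2 ≤ L) (x0 : ℝ) (h0 : 0 ≤ x0)
    (h1 : x0 ≤ 1) (A1 : Matrix (Fin n1) (Fin n1) ℝ) (A2 : Matrix (Fin n2) (Fin n2) ℝ)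
    (A3 : Matrix (Fin n3) (Fin n3) ℝ) (A4 : Matrix (Fin n4) (Fin n4) ℝ)
    (b1 : ∀ i j, |A1 i j| ≤ 2) (b2 : ∀ i j, |A2 i j| ≤ 2) (b3 : ∀ i j, |A3 i j| ≤ 2)
    (b4 : ∀ i j, |A4 i j| ≤ 2) : TC 10 (2 * L) (covL x0 A1 A2 A3 A4) := by
  have hB : (0 : ℝ) ≤ 2 * L := by positivity
  have t1 : TC 2 (2 * L) (fun _ : ℝ => k4 (cx A1) (1 : Matrix (Fin n2) (Fin n2) ℂ)
      (1 : Matrix (Fin n3) (Fin n3) ℂ) (1 : Matrix (Fin n4) (Fin n4) ℂ)) :=
    (TC.k4 (TC.cx b1) TC.one TC.one TC.one).mono (by norm_num) hB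
  have t2 : TC 2 (2 * L) (fun _ : ℝ => k4 (1 : Matrix (Fin n1) (Fin n1) ℂ)
      (Matrix.diagonal fun i => ((A2 i i : ℝ) : ℂ))
      (1 : Matrix (Fin n3) (Fin n3) ℂ) (1 : Matrix (Fin n4) (Fin n4) ℂ)) :=
    (TC.k4 TC.one (TC.diag (fun i => b2 i i) (by norm_num)) TC.one TC.one).mono (by norm_num) hB
  have t3 : TC 1 (2 * L) (fun θ : ℝ => k4 (phs (n := n1) θ 1 x0) (cx (tm n2))
      (1 : Matrix (Fin n3) (Fin n3) ℂ) (1 : Matrix (Fin n4) (Fin n4) ℂ)) :=
    (TC.k4 (TC.phs hn hL 1 x0 (by norm_num) h0 h1) (TC.cx (tm_le n2)) TC.one TC.one).mono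
      (by norm_num) le_rfl
  have t4 : TC 1 (2 * L) (fun θ : ℝ => k4 (phs (n := n1) θ (-1) x0) (cx (tm n2)ᵀ)
      (1 : Matrix (Fin n3) (Fin n3) ℂ) (1 : Matrix (Fin n4) (Fin n4) ℂ)) :=
    (TC.k4 (TC.phs hn hL (-1) x0 (by norm_num) h0 h1) (TC.cx (tmT_le n2)) TC.one TC.one).mono
      (by norm_num) le_rfl
  have t5 : TC 2 (2 * L) (fun _ : ℝ => k4 (1 : Matrix (Fin n1) (Fin n1) ℂ)
      (1 : Matrix (Fin n2) (Fin n2) ℂ) (cx A3) (1 : Matrix (Fin n4) (Fin n4) ℂ)) :=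
    (TC.k4 TC.one TC.one (TC.cx b3) TC.one).mono (by norm_num) hB
  have t6 : TC 2 (2 * L) (fun _ : ℝ => k4 (1 : Matrix (Fin n1) (Fin n1) ℂ)
      (1 : Matrix (Fin n2) (Fin n2) ℂ) (1 : Matrix (Fin n3) (Fin n3) ℂ) (cx A4)) :=
    (TC.k4 TC.one TC.one TC.one (TC.cx b4)).mono (by norm_num) hB
  exact (((((t1.add t2).sub t3).sub t4).add t5).add t6).mono (by norm_num) le_rfl

theorem kap_TP : TP 4 (1 / 2) kap := by
  refine ⟨[(2, 0), (-1, 1 / 2), (-1, -(1 / 2))], fun θ => ?_, ?_, ?_⟩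
  · rw [tp_cons, tp_cons, tp_cons, tp_nil]
    have h := Complex.two_cos (((θ / 2 : ℝ) : ℂ))
    unfold kap
    have e1 : Complex.I * ((θ * (1 / 2) : ℝ) : ℂ) = ((θ / 2 : ℝ) : ℂ) * Complex.I := by
      push_cast; ring
    have e2 : Complex.I * ((θ * -(1 / 2) : ℝ) : ℂ) = -((θ / 2 : ℝ) : ℂ) * Complex.I := by
      push_cast; ring
    show ((2 - 2 * Real.cos (θ / 2) : ℝ) : ℂ) = ((2 : ℝ) : ℂ) *
      Complex.exp (Complex.I * ((θ * 0 : ℝ) : ℂ)) + (((-1 : ℝ) : ℂ) *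
      Complex.exp (Complex.I * ((θ * (1 / 2) : ℝ) : ℂ)) + (((-1 : ℝ) : ℂ) *
      Complex.exp (Complex.I * ((θ * -(1 / 2) : ℝ) : ℂ)) + 0))
    rw [e1, e2]
    push_cast at h ⊢
    rw [h]
    simp
    ring
  · unfold wt
    norm_num
  · intro a ha
    simp only [List.mem_cons, List.not_mem_nil, or_false] at ha
    rcases ha with rfl | rfl | rfl <;> norm_num [abs_of_pos]

theorem sin_TP : TP 2 (1 / 4) (fun θ => -(2 * Complex.I * (Real.sin (θ / 4) : ℝ))) := by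
  refine ⟨[(-1, 1 / 4), (1, -(1 / 4))], fun θ => ?_, ?_, ?_⟩
  · rw [tp_cons, tp_cons, tp_nil]
    have h := Complex.two_sin (((θ / 4 : ℝ) : ℂ))
    have e1 : Complex.I * ((θ * (1 / 4) : ℝ) : ℂ) = ((θ / 4 : ℝ) : ℂ) * Complex.I := by
      push_cast; ring
    have e2 : Complex.I * ((θ * -(1 / 4) : ℝ) : ℂ) = -((θ / 4 : ℝ) : ℂ) * Complex.I := by
      push_cast; ring
    show -(2 * Complex.I * ((Real.sin (θ / 4) : ℝ) : ℂ)) = (((-1 : ℝ) : ℂ) *
      Complex.exp (Complex.I * ((θ * (1 / 4) : ℝ) : ℂ)) + (((1 : ℝ) : ℂ) *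
      Complex.exp (Complex.I * ((θ * -(1 / 4) : ℝ) : ℂ)) + 0))
    rw [e1, e2]
    have e3 : (2 * Complex.I * ((Real.sin (θ / 4) : ℝ) : ℂ)) =
        Complex.I * (2 * Complex.sin ((θ / 4 : ℝ) : ℂ)) := by
      rw [Complex.ofReal_sin]
      ring
    rw [e3, h]
    have e4 : ∀ z w : ℂ, -(Complex.I * ((z - w) * Complex.I)) = z - w := by
      intro z w
      have : -(Complex.I * ((z - w) * Complex.I)) = -(Complex.I * Complex.I) * (z - w) := by ring
      rw [this, Complex.I_mul_I]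
      ring
    rw [e4]
    push_cast
    ring
  · unfold wt
    norm_num
  · intro a ha
    simp only [List.mem_cons, List.not_mem_nil, or_false] at ha
    rcases ha with rfl | rfl <;> norm_num [abs_of_pos]

theorem e0_TW (n m : ℕ) : TW (fun j i => if (i : ℕ) = j then (1 : ℝ) else 0 : Matrix (Fin n) (Fin m) ℝ)
    0 (fun _ => e0 n m) := fun j i => by
  show TP (if (i : ℕ) = j then (1 : ℝ) else 0) 0 (fun _ => if (i : ℕ) = j then (1 : ℂ) else 0)
  split_ifs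
  · simpa using TP.real 1
  · exact TP.zero 0

theorem e1_TW (n m : ℕ) :
    TW (fun j i => if (i : ℕ) + 1 = j then (1 : ℝ) else 0 : Matrix (Fin n) (Fin m) ℝ)
    0 (fun _ => e1 n m) := fun j i => by
  show TP (if (i : ℕ) + 1 = j then (1 : ℝ) else 0) 0
    (fun _ => if (i : ℕ) + 1 = j then (1 : ℂ) else 0)
  split_ifs
  · simpa using TP.real 1
  · exact TP.zero 0

theorem e0T_TC (n m : ℕ) : TC 1 0 (fun _ => (e0 n m)ᵀ) := fun i j =>
  (e0_TW n m j i).mono (by beta_reduce; split_ifs <;> norm_num) le_rfl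

theorem e1T_TC (n m : ℕ) : TC 1 0 (fun _ => (e1 n m)ᵀ) := fun i j =>
  (e1_TW n m j i).mono (by beta_reduce; split_ifs <;> norm_num) le_rfl

theorem nm_abs (n m : ℕ) (j : Fin n) (i : Fin m) : |nm n m j i| ≤ 2 := by
  rw [abs_of_nonneg (nm_nonneg _ _ _ _)]
  exact nm_le _ _ _ _

theorem m12_TC {L : ℕ} (hL : 2 ≤ L) : TC 8 (4 * L) (m12 L) := by
  have hL' : (2 : ℝ) ≤ L := by exact_mod_cast hL
  have t1 : TC 2 (2 * L) (fun θ : ℝ => k4 (phs (n := L) θ (1 / 2) (1 / 2) * cx (nm L (L - 1)))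
      (e1 L (L - 1))ᵀ (1 : Matrix (Fin (L - 1)) (Fin (L - 1)) ℂ) (1 : Matrix (Fin L) (Fin L) ℂ)) :=
    (TC.k4 (TC.phs_mul le_rfl hL (1 / 2) (1 / 2) (by rw [abs_of_pos] <;> norm_num) (by norm_num)
      (by norm_num) (nm_abs L (L - 1))) (e1T_TC _ _) TC.one TC.one).mono (by norm_num) le_rfl
  have t2 : TC 2 (2 * L) (fun θ : ℝ => k4 (phs (n := L) θ (-(1 / 2)) (1 / 2) * cx (nm L (L - 1)))
      (e0 L (L - 1))ᵀ (1 : Matrix (Fin (L - 1)) (Fin (L - 1)) ℂ) (1 : Matrix (Fin L) (Fin L) ℂ)) :=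
    (TC.k4 (TC.phs_mul le_rfl hL (-(1 / 2)) (1 / 2)
      (by rw [abs_neg, abs_of_pos] <;> norm_num) (by norm_num)
      (by norm_num) (nm_abs L (L - 1))) (e0T_TC _ _) TC.one TC.one).mono (by norm_num) le_rfl
  exact (TC.smul sin_TP (t1.add t2)).mono (by norm_num) (by linarith)

theorem kap_TC {n : Type} [DecidableEq n] {L : ℕ} (hL : 2 ≤ L) :
    TC 4 (4 * L) (fun θ => kap θ • (1 : Matrix n n ℂ)) := by
  have hL' : (2 : ℝ) ≤ L := by exact_mod_cast hL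
  exact (TC.smul kap_TP TC.one).mono (by norm_num) (by linarith)

theorem b_DD (L : ℕ) (i j : Fin (L - 1)) : |lDD L i j| ≤ 2 := lT_le _ _ _ _
theorem b_NN (L : ℕ) (i j : Fin L) : |lNN L i j| ≤ 2 := lN_le _ _ _ _
theorem b_DN (L : ℕ) (i j : Fin L) : |lDN L i j| ≤ 2 := lT_le _ _ _ _

theorem m11_TC {L : ℕ} (hL : 2 ≤ L) : TC 14 (4 * L) (m11 L) := by
  have hL' : (2 : ℝ) ≤ L := by exact_mod_cast hL
  exact (((covL_TC le_rfl hL (1 / 2) (by norm_num) (by norm_num) (lNN L) (lDD L) (lDD L) (lDN L)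
    (b_NN L) (b_DD L) (b_DD L) (b_DN L)).mono le_rfl (by linarith)).sub (kap_TC hL)).mono
    (by norm_num) le_rfl

theorem m22_TC {L : ℕ} (hL : 2 ≤ L) : TC 14 (4 * L) (m22 L) := by
  have hL' : (2 : ℝ) ≤ L := by exact_mod_cast hL
  exact (((covL_TC (Nat.sub_le _ _) hL 1 (by norm_num) le_rfl (lDD L) (lNN L) (lDD L) (lDN L)
    (b_DD L) (b_NN L) (b_DD L) (b_DN L)).mono le_rfl (by linarith)).sub (kap_TC hL)).mono
    (by norm_num) le_rfl

theorem m33_TC {L : ℕ} (hL : 2 ≤ L) : TC 14 (4 * L) (m33 L) := by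
  have hL' : (2 : ℝ) ≤ L := by exact_mod_cast hL
  exact (covL_TC (Nat.sub_le _ _) hL 1 (by norm_num) le_rfl (lDD L) (lDD L) (lNN L) (lDN L)
    (b_DD L) (b_DD L) (b_NN L) (b_DN L)).mono (by norm_num) (by linarith)

theorem mH_TC {L : ℕ} (hL : 2 ≤ L) : TC 14 (4 * L) (mH L) := by
  have z : ∀ {f : ℝ → ℂ}, (∀ θ, f θ = 0) → TP 14 (4 * L) f := by
    intro f hf
    have : f = fun _ => 0 := funext hf
    rw [this]
    exact (TP.zero _).mono (by norm_num) le_rfl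
  have t12 := m12_TC hL
  intro i j
  rcases i with i | i | i <;> rcases j with j | j | j
  · exact m11_TC hL i j
  · exact (t12 i j).mono (by norm_num) le_rfl
  · exact z fun θ => rfl
  · exact (t12.star i j).mono (by norm_num) le_rfl
  · exact m22_TC hL i j
  · exact z fun θ => rfl
  · exact z fun θ => rfl
  · exact z fun θ => rfl
  · exact m33_TC hL i j

/-- the weights of the gradient -/
def wV (L : ℕ) : Matrix (IH L) (I0 L) ℝ :=
  Matrix.fromRows (k4 (nm L (L - 1)) 1 1 1) (Matrix.fromRows (k4 1 (nm L (L - 1)) 1 1)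
    (k4 1 1 (nm L (L - 1)) 1))

theorem gV_TW {L : ℕ} (hL : 2 ≤ L) : TW (wV L) (2 * L) (gV L) := by
  have hB : (0 : ℝ) ≤ 2 * L := by positivity
  have hd : TW (nm L (L - 1)) 0 (fun _ => cx (dm L (L - 1))) := fun i j =>
    (TP.real (dm L (L - 1) i j)).mono (dm_le _ _ _ _) le_rfl
  have t1 : TW (k4 (nm L (L - 1)) (1 : Matrix (Fin (L - 1)) (Fin (L - 1)) ℝ)
      (1 : Matrix (Fin (L - 1)) (Fin (L - 1)) ℝ) (1 : Matrix (Fin L) (Fin L) ℝ)) 0
      (fun _ => g1 L) := TW.k4 hd TW.one TW.one TW.one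
  have t3 : TW (k4 (1 : Matrix (Fin (L - 1)) (Fin (L - 1)) ℝ)
      (1 : Matrix (Fin (L - 1)) (Fin (L - 1)) ℝ) (nm L (L - 1)) (1 : Matrix (Fin L) (Fin L) ℝ)) 0
      (fun _ => g3 L) := TW.k4 TW.one TW.one hd TW.one
  have t2a := TW.k4 (TW.phs (Nat.sub_le L 1) hL (1 / 2) 1
    (by rw [abs_of_pos] <;> norm_num) (by norm_num) le_rfl) (e0_TW L (L - 1))
    (TW.one (n := Fin (L - 1))) (TW.one (n := Fin L))
  have t2b := TW.k4 (TW.phs (Nat.sub_le L 1) hL (-(1 / 2)) 1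
    (by rw [abs_neg, abs_of_pos] <;> norm_num) (by norm_num) le_rfl) (e1_TW L (L - 1))
    (TW.one (n := Fin (L - 1))) (TW.one (n := Fin L))
  intro i k
  rcases i with i | i | i
  · exact (t1 i k).mono le_rfl hB
  · refine ((t2a i k).sub (t2b i k)).mono (le_of_eq ?_) le_rfl
    show _ = k4 1 (nm L (L - 1)) 1 1 i k
    unfold k4 nm
    ring
  · exact (t3 i k).mono le_rfl hB

theorem k4_bd {a b c d a' b' c' d' : Type} {A : Matrix a a' ℝ} {B : Matrix b b' ℝ}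
    {C : Matrix c c' ℝ} {D : Matrix d d' ℝ} {w1 w2 w3 w4 : ℝ}
    (hA : ∀ i j, 0 ≤ A i j ∧ A i j ≤ w1) (hB : ∀ i j, 0 ≤ B i j ∧ B i j ≤ w2)
    (hC : ∀ i j, 0 ≤ C i j ∧ C i j ≤ w3) (hD : ∀ i j, 0 ≤ D i j ∧ D i j ≤ w4) (i : a × b × c × d)
    (j : a' × b' × c' × d') : 0 ≤ k4 A B C D i j ∧ k4 A B C D i j ≤ w1 * w2 * w3 * w4 := by
  obtain ⟨a0, a1⟩ := hA i.1 j.1
  obtain ⟨b0, b1⟩ := hB i.2.1 j.2.1
  obtain ⟨c0, c1⟩ := hC i.2.2.1 j.2.2.1
  obtain ⟨d0, d1⟩ := hD i.2.2.2 j.2.2.2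
  unfold k4
  have ha := a0.trans a1
  have hb := b0.trans b1
  have hc := c0.trans c1
  refine ⟨by positivity, ?_⟩
  gcongr

theorem k4_sum {a b c d a' b' c' d' : Type} [Fintype a'] [Fintype b'] [Fintype c'] [Fintype d']
    (A : Matrix a a' ℝ) (B : Matrix b b' ℝ) (C : Matrix c c' ℝ) (D : Matrix d d' ℝ)
    (i : a × b × c × d) : ∑ k, k4 A B C D i k =
      (∑ k, A i.1 k) * (∑ k, B i.2.1 k) * (∑ k, C i.2.2.1 k) * (∑ k, D i.2.2.2 k) := by
  unfold k4
  simp only [Fintype.sum_prod_type, ← Finset.mul_sum, ← Finset.sum_mul]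

theorem one_sum {n : Type} [Fintype n] [DecidableEq n] (i : n) :
    ∑ k, (1 : Matrix n n ℝ) i k = 1 := by
  simp [Matrix.one_apply]

theorem wV_bd (L : ℕ) (i : IH L) (k : I0 L) : 0 ≤ wV L i k ∧ wV L i k ≤ 2 := by
  have h1 : ∀ {n : Type} [DecidableEq n] (i j : n), 0 ≤ (1 : Matrix n n ℝ) i j ∧
      (1 : Matrix n n ℝ) i j ≤ 1 := fun i j => ⟨one_nonneg' i j, one_le_one i j⟩
  have h2 : ∀ i j, 0 ≤ nm L (L - 1) i j ∧ nm L (L - 1) i j ≤ 2 := fun i j =>
    ⟨nm_nonneg _ _ _ _, nm_le _ _ _ _⟩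
  rcases i with i | i | i
  · have := k4_bd h2 (h1 (n := Fin (L - 1))) (h1 (n := Fin (L - 1))) (h1 (n := Fin L)) i k
    norm_num at this
    exact this
  · have := k4_bd (h1 (n := Fin (L - 1))) h2 (h1 (n := Fin (L - 1))) (h1 (n := Fin L)) i k
    norm_num at this
    exact this
  · have := k4_bd (h1 (n := Fin (L - 1))) (h1 (n := Fin (L - 1))) h2 (h1 (n := Fin L)) i k
    norm_num at this
    exact this

theorem wV_sum (L : ℕ) (i : IH L) : ∑ k, wV L i k ≤ 2 := by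
  rcases i with i | i | i
  · have := k4_sum (nm L (L - 1)) (1 : Matrix (Fin (L - 1)) (Fin (L - 1)) ℝ)
      (1 : Matrix (Fin (L - 1)) (Fin (L - 1)) ℝ) (1 : Matrix (Fin L) (Fin L) ℝ) i
    rw [one_sum, one_sum, one_sum, mul_one, mul_one, mul_one] at this
    exact this.le.trans (nm_row _ _ _)
  · have := k4_sum (1 : Matrix (Fin (L - 1)) (Fin (L - 1)) ℝ) (nm L (L - 1))
      (1 : Matrix (Fin (L - 1)) (Fin (L - 1)) ℝ) (1 : Matrix (Fin L) (Fin L) ℝ) i
    rw [one_sum, one_sum, one_sum, mul_one, mul_one, one_mul] at this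
    exact this.le.trans (nm_row _ _ _)
  · have := k4_sum (1 : Matrix (Fin (L - 1)) (Fin (L - 1)) ℝ)
      (1 : Matrix (Fin (L - 1)) (Fin (L - 1)) ℝ) (nm L (L - 1)) (1 : Matrix (Fin L) (Fin L) ℝ) i
    rw [one_sum, one_sum, one_sum, mul_one, one_mul, one_mul] at this
    exact this.le.trans (nm_row _ _ _)

theorem gg_TC {L : ℕ} (hL : 2 ≤ L) : TC 4 (4 * L) (fun θ => gV L θ * (gV L θ)ᴴ) := by
  intro i j
  have h := TP.sum Finset.univ (fun k => wV L i k * wV L j k) (2 * L + 2 * L)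
    (fun k θ => gV L θ i k * star (gV L θ j k))
    (fun k _ => (gV_TW hL i k).mul (gV_TW hL j k).star)
  have e : (fun θ => (gV L θ * (gV L θ)ᴴ) i j) =
      fun θ => ∑ k, gV L θ i k * star (gV L θ j k) := by
    funext θ
    rw [Matrix.mul_apply]
    rfl
  rw [e]
  refine h.mono ?_ (by linarith)
  calc ∑ k, wV L i k * wV L j k ≤ ∑ k, wV L i k * 2 := Finset.sum_le_sum fun k _ =>
        mul_le_mul_of_nonneg_left (wV_bd L j k).2 (wV_bd L i k).1
    _ = (∑ k, wV L i k) * 2 := (Finset.sum_mul _ _ _).symm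
    _ ≤ 4 := by
      have := wV_sum L i
      linarith

theorem hC_TC {L : ℕ} (hL : 2 ≤ L) : TC 18 (4 * L) (hC L) :=
  ((mH_TC hL).sub (gg_TC hL)).mono (by norm_num) le_rfl

theorem hC_herm (hG : S_G1) {L : ℕ} (hL : 2 ≤ L) (θ : ℝ) (i j : IH L) :
    hC L θ i j = star (hC L θ j i) := by
  have h1 : (mH L θ).IsHermitian := by
    ext a b
    have h := (hG L hL θ).2.2.2.2.apply (Sum.inl a) (Sum.inl b)
    exact h
  have h2 : (hC L θ).IsHermitian := h1.sub (Matrix.isHermitian_mul_conjTranspose_self _)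
  exact (h2.apply i j).symm

/-- **Task AF-HR** (from `S_G1`). -/
theorem thr (hG : S_G1) : S_HR := by
  refine ⟨288, fun L hL => ?_⟩
  have hB : (0 : ℝ) ≤ 4 * L := by positivity
  have hL' : (2 : ℝ) ≤ L := by exact_mod_cast hL
  have hT := hC_TC hL
  have key : ∀ i j, hC L 0 i j = (mA L i j : ℂ) ∧
      deriv (fun θ => hC L θ i j) 0 = Complex.I * (mB L i j : ℂ) ∧
      deriv (deriv fun θ => hC L θ i j) 0 = (mC L i j : ℂ) ∧ |mA L i j| ≤ 18 ∧
      |mB L i j| ≤ 18 * (4 * L) ∧ |mC L i j| ≤ 18 * (4 * (L : ℝ)) ^ 2 := by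
    intro i j
    obtain ⟨r0, r1, r2, h0, h1, h2, b0, b1, b2⟩ := (hT i j).fin hB
    have e0 : mA L i j = r0 := by
      show (hC L 0 i j).re = r0
      rw [h0, Complex.ofReal_re]
    have e1 : mB L i j = r1 := by
      show (deriv (fun θ => hC L θ i j) 0).im = r1
      rw [h1]
      simp
    have e2 : mC L i j = r2 := by
      show (deriv (deriv fun θ => hC L θ i j) 0).re = r2
      rw [h2, Complex.ofReal_re]
    rw [e0, e1, e2]
    exact ⟨h0, h1, h2, b0, b1, b2⟩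
  have hs : ∀ i j, (fun θ => hC L θ i j) = fun θ => star (hC L θ j i) := fun i j =>
    funext fun θ => hC_herm hG hL θ i j
  have hd : ∀ i j, deriv (fun θ => hC L θ i j) = fun θ => star (deriv (fun θ => hC L θ j i) θ) := by
    intro i j
    rw [hs i j]
    funext θ
    exact deriv.star
  have hd2 : ∀ i j, deriv (deriv fun θ => hC L θ i j) 0 =
      star (deriv (deriv fun θ => hC L θ j i) 0) := by
    intro i j
    rw [hd i j]
    exact deriv.star
  refine ⟨?_, ?_, ?_, ?_, fun i j => (key i j).2.1, fun i j => (key i j).2.2.1, fun i j => ?_⟩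
  · ext i j
    exact (key i j).1
  · ext i j
    have h := hC_herm hG hL 0 j i
    rw [(key j i).1, (key i j).1] at h
    have h' := congrArg Complex.re h
    simpa using h'
  · ext i j
    have h := congrFun (hd j i) 0
    rw [(key j i).2.1, (key i j).2.1] at h
    have h' := congrArg Complex.im h
    simpa using h'
  · ext i j
    have h := hd2 j i
    rw [(key j i).2.2.1, (key i j).2.2.1] at h
    have h' := congrArg Complex.re h
    simpa using h'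
  · obtain ⟨-, -, -, b0, b1, b2⟩ := key i j
    refine ⟨by linarith, by linarith, ?_⟩
    calc |mC L i j| ≤ 18 * (4 * (L : ℝ)) ^ 2 := b2
      _ = 288 * (L : ℝ) ^ 2 := by ring

end

end Pool.Agent.H16.AF
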